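import Mathlib
import Pool.Agent.H373R2.T7.BilF
import Pool.Agent.W5h22.PV.D

set_option autoImplicit false

/-! Weights on the squares and on the primes: the second moment and the frequency which explains a large
second moment. -/

namespace Pool.Agent.W5h22.JW
open Finset Polynomial Filter Topology
open Pool.Agent.Helper602.MK
open Pool.Agent.Helper602.MK.N_J5b (ee_add ee_zero ee_conj norm_ee ee_int norm_one_sub_ee)
open Pool.Agent.H373R2.NB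
open Pool.Agent.W5h22.PV

section
variable {M : ℕ} [NeZero M]

/-- the second moment identity with weights -/
lemma second_w {ι : Type*} (u : ZMod M → ℝ) (s : Finset ι) (w : ι → ℝ) (c : ι → ZMod M) :
    (M : ℝ) * ∑ a : ZMod M, (∑ i ∈ s, w i * u (a + c i)) ^ 2 =
      ∑ ξ, ‖hat u ξ‖ ^ 2 * ‖∑ i ∈ s, (w i : ℂ) * (ZMod.stdAddChar (ξ * c i) : ℂ)‖ ^ 2 := by
  rw [← parseval (fun a => ∑ i ∈ s, w i * u (a + c i))]
  apply sum_congr rfl
  intro ξ _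
  have h1 : hat (fun a => ∑ i ∈ s, w i * u (a + c i)) ξ = (∑ i ∈ s, (w i : ℂ) * (ZMod.stdAddChar (-(ξ * c i)) : ℂ)) * hat u ξ := by
    rw [sum_mul]
    have h2 : ∀ i ∈ s, (w i : ℂ) * (ZMod.stdAddChar (-(ξ * c i)) : ℂ) * hat u ξ =
        ∑ m, (w i : ℂ) * (((u (m + c i) : ℝ) : ℂ) * ZMod.stdAddChar (ξ * m)) := fun i _ => by
      rw [← mul_sum, hat_add u (c i) ξ, mul_assoc]
    rw [sum_congr rfl h2, sum_comm]
    unfold hat
    apply sum_congr rfl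
    intro m _
    push_cast
    rw [sum_mul]
    apply sum_congr rfl
    intro i _
    ring
  have h3 : ∑ i ∈ s, (w i : ℂ) * (ZMod.stdAddChar (-(ξ * c i)) : ℂ) =
      (starRingEnd ℂ) (∑ i ∈ s, (w i : ℂ) * (ZMod.stdAddChar (ξ * c i) : ℂ)) := by
    rw [map_sum]
    exact sum_congr rfl fun i _ => by rw [map_mul, Complex.conj_ofReal, chi_conj]
  rw [h1, norm_mul, mul_pow, mul_comm, h3, RCLike.norm_conj]

end

lemma ee_eq (t : ℝ) : Pool.Agent.H807R2.Dav.ee t = ee t := by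
  unfold Pool.Agent.H807R2.Dav.ee ee
  congr 1
  ring

/-- moments of weighted Weyl sums -/
lemma weyl_w (B : ℕ) (hB : 1 ≤ B) : ∃ p : ℕ, 1 ≤ p ∧ ∃ C : ℝ, 0 < C ∧ ∀ x M : ℕ, [NeZero M] → 1 ≤ x → M ≤ B * x ^ 2 →
    ∀ w : ℕ → ℝ, (∀ n, |w n| ≤ 1) →
      ∑ ξ : ZMod M, (‖∑ n ∈ Icc 1 x, (w n : ℂ) * (ZMod.stdAddChar (ξ * (((n : ℤ) ^ 2 : ℤ) : ZMod M)) : ℂ)‖ / x) ^ (2 * p) ≤ C := by
  have hdeg : (X ^ 2 : ℤ[X]).natDegree = 2 := natDegree_X_pow 2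
  have hl : 0 < (X ^ 2 : ℤ[X]).leadingCoeff := by rw [leadingCoeff_X_pow]; norm_num
  obtain ⟨p, hp, C, hC, hW⟩ := weyl_moment (X ^ 2 : ℤ[X]) (by rw [hdeg]; norm_num) hl B hB
  refine ⟨p, hp, C, hC, ?_⟩
  intro x M hM hx hMx w hw
  rw [hdeg] at hW
  have hM1 : 1 ≤ M := Nat.one_le_iff_ne_zero.2 (NeZero.ne M)
  have hx0 : (0 : ℝ) < x := by exact_mod_cast hx
  have h0 := hW x M hx hM1 hMx
  simp only [eval_pow, eval_X] at h0
  have h1 := Pool.Agent.H373R2.T7.majorant_pow p x (fun n => (w n : ℂ)) (fun n => by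
    rw [Complex.norm_real, Real.norm_eq_abs]; exact hw n) (fun n => (n : ℤ) ^ 2) M hM1
  simp only [ee_eq] at h1
  have e1 : ∀ (ξ : ZMod M) (n : ℕ), (ZMod.stdAddChar (ξ * (((n : ℤ) ^ 2 : ℤ) : ZMod M)) : ℂ) =
      ee ((ξ.val : ℝ) * ((((n : ℤ) ^ 2 : ℤ) : ℝ) / M)) := by
    intro ξ n
    rw [chi_eq_int]
    congr 1
    ring
  have h2 : ∑ ξ : ZMod M, (‖∑ n ∈ Icc 1 x, (w n : ℂ) * (ZMod.stdAddChar (ξ * (((n : ℤ) ^ 2 : ℤ) : ZMod M)) : ℂ)‖ / x) ^ (2 * p) =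
      (∑ t ∈ range M, ‖∑ n ∈ Icc 1 x, (w n : ℂ) * ee ((t : ℝ) * ((((n : ℤ) ^ 2 : ℤ) : ℝ) / M))‖ ^ (2 * p)) / (x : ℝ) ^ (2 * p) := by
    rw [← sum_val (fun t : ℕ => ‖∑ n ∈ Icc 1 x, (w n : ℂ) * ee ((t : ℝ) * ((((n : ℤ) ^ 2 : ℤ) : ℝ) / M))‖ ^ (2 * p)), sum_div]
    apply sum_congr rfl
    intro ξ _
    rw [div_pow]
    simp only [e1]
  rw [h2]
  have h3 : ∑ t ∈ range M, ‖∑ n ∈ Icc 1 x, ee ((t : ℝ) * ((((n : ℤ) ^ 2 : ℤ) : ℝ) / M))‖ ^ (2 * p) ≤ C * (x : ℝ) ^ (2 * p) := by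
    have h4 : ∀ t ∈ range M, ‖∑ n ∈ Icc 1 x, ee ((t : ℝ) * ((((n : ℤ) ^ 2 : ℤ) : ℝ) / M))‖ ^ (2 * p) ≤
        (‖∑ n ∈ Icc 1 x, ee ((t : ℝ) * (((n : ℤ) ^ 2 : ℤ) : ℝ) / M)‖ / x) ^ p * (x : ℝ) ^ (2 * p) := by
      intro t _
      have e2 : ∑ n ∈ Icc 1 x, ee ((t : ℝ) * (((n : ℤ) ^ 2 : ℤ) : ℝ) / M) = ∑ n ∈ Icc 1 x, ee ((t : ℝ) * ((((n : ℤ) ^ 2 : ℤ) : ℝ) / M)) := by
        apply sum_congr rfl
        intro n _
        congr 1
        ring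
      rw [e2]
      set z := ‖∑ n ∈ Icc 1 x, ee ((t : ℝ) * ((((n : ℤ) ^ 2 : ℤ) : ℝ) / M))‖ with hz
      have hz0 : 0 ≤ z := norm_nonneg _
      have hz1 : z ≤ x := by
        calc z ≤ ∑ n ∈ Icc 1 x, ‖ee ((t : ℝ) * ((((n : ℤ) ^ 2 : ℤ) : ℝ) / M))‖ := norm_sum_le _ _
          _ = x := by simp [norm_ee]
      have h5 : z ^ (2 * p) = (z / x) ^ (2 * p) * (x : ℝ) ^ (2 * p) := by
        rw [div_pow, div_mul_cancel₀]
        positivity
      rw [h5]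
      apply mul_le_mul_of_nonneg_right _ (by positivity)
      apply pow_le_pow_of_le_one (by positivity)
      · rw [div_le_one hx0]; exact hz1
      · omega
    refine (sum_le_sum h4).trans ?_
    rw [← sum_mul]
    exact mul_le_mul_of_nonneg_right h0 (by positivity)
  rw [div_le_iff₀ (by positivity)]
  exact h1.trans h3

/-- if at no frequency both factors are large then the sum is small -/
lemma mix2 {G : Type*} [Fintype G] (g s : G → ℝ) (p : ℕ) (hp : 1 ≤ p) (δ C₁ C₂ : ℝ) (hδ : 0 ≤ δ)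
    (hg0 : ∀ ξ, 0 ≤ g ξ) (hs0 : ∀ t, 0 ≤ s t) (hs1 : ∀ t, s t ≤ 1)
    (hb : ∀ ξ, g ξ * s ξ ^ 2 ≤ δ ^ (p + 2))
    (h1 : ∑ t, s t ^ p ≤ C₁) (h2 : ∑ ξ, g ξ ^ (1 + 1 / (p : ℝ)) ≤ C₂) :
    ∑ ξ, g ξ * s ξ ^ 2 ≤ δ * (C₁ + C₂) := by
  have hp0 : (0 : ℝ) < p := by exact_mod_cast hp
  set θ : ℝ := (p + 1) / (p + 2) with hθ
  have hθ0 : 0 < θ := by positivity
  have hθ1 : 1 / ((p : ℝ) + 2) + θ = 1 := by rw [hθ]; field_simp; ring
  have hterm : ∀ ξ, g ξ * s ξ ^ 2 ≤ δ * (s ξ ^ p + g ξ ^ (1 + 1 / (p : ℝ))) := by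
    intro ξ
    have k0 := hs0 ξ
    have k1 := hs1 ξ
    have k2 := hg0 ξ
    have k3 : 0 ≤ s ξ ^ p := by positivity
    have k4 : 0 ≤ g ξ ^ (1 + 1 / (p : ℝ)) := Real.rpow_nonneg k2 _
    set v := g ξ * s ξ ^ 2 with hv
    have hv0 : 0 ≤ v := by positivity
    have e1 : v = v ^ (1 / ((p : ℝ) + 2)) * v ^ θ := by
      rw [← Real.rpow_add_of_nonneg hv0 (by positivity) hθ0.le, hθ1, Real.rpow_one]
    have e2 : v ^ (1 / ((p : ℝ) + 2)) ≤ δ := by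
      have h3 := Real.rpow_le_rpow hv0 (hb ξ) (show 0 ≤ 1 / ((p : ℝ) + 2) by positivity)
      refine h3.trans (le_of_eq ?_)
      rw [← Real.rpow_natCast, ← Real.rpow_mul hδ]
      push_cast
      rw [mul_one_div_cancel (by positivity), Real.rpow_one]
    have e3 : v ^ θ ≤ s ξ ^ p + g ξ ^ (1 + 1 / (p : ℝ)) := by
      rcases le_or_gt (s ξ) (g ξ ^ (1 / (p : ℝ))) with h | h
      · -- s ≤ g^{1/p}
        rcases le_or_gt 1 (g ξ) with hg | hg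
        · have h5 : v ≤ g ξ := by
            rw [hv]
            have : s ξ ^ 2 ≤ 1 := pow_le_one₀ k0 k1
            nlinarith
          have h6 : v ^ θ ≤ g ξ ^ (1 + 1 / (p : ℝ)) := by
            calc v ^ θ ≤ g ξ ^ θ := Real.rpow_le_rpow hv0 h5 hθ0.le
              _ ≤ g ξ ^ (1 + 1 / (p : ℝ)) := by
                apply Real.rpow_le_rpow_of_exponent_le hg
                have : θ ≤ 1 := by rw [hθ, div_le_one (by positivity)]; linarith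
                have : 0 < 1 / (p : ℝ) := by positivity
                linarith
          linarith
        · rcases eq_or_lt_of_le k2 with hz | hz
          · have : v = 0 := by rw [hv, ← hz]; ring
            rw [this, Real.zero_rpow hθ0.ne']
            linarith
          · have h5 : v ≤ g ξ ^ (1 + 2 / (p : ℝ)) := by
              rw [hv, Real.rpow_add hz, Real.rpow_one]
              apply mul_le_mul_of_nonneg_left _ k2
              calc s ξ ^ 2 ≤ (g ξ ^ (1 / (p : ℝ))) ^ 2 := pow_le_pow_left₀ k0 h 2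
                _ = g ξ ^ (2 / (p : ℝ)) := by
                  rw [← Real.rpow_natCast, ← Real.rpow_mul k2]
                  congr 1
                  push_cast
                  ring
            have h6 : v ^ θ ≤ g ξ ^ (1 + 1 / (p : ℝ)) := by
              calc v ^ θ ≤ (g ξ ^ (1 + 2 / (p : ℝ))) ^ θ := Real.rpow_le_rpow hv0 h5 hθ0.le
                _ = g ξ ^ (1 + 1 / (p : ℝ)) := by
                  rw [← Real.rpow_mul k2]
                  congr 1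
                  rw [hθ]
                  field_simp
            linarith
      · -- g < s^p
        have h4 : g ξ ≤ s ξ ^ p := by
          calc g ξ = (g ξ ^ (1 / (p : ℝ))) ^ p := by
                rw [← Real.rpow_natCast, ← Real.rpow_mul k2, one_div, inv_mul_cancel₀ hp0.ne', Real.rpow_one]
            _ ≤ s ξ ^ p := pow_le_pow_left₀ (Real.rpow_nonneg k2 _) h.le p
        have h5 : v ≤ s ξ ^ (p + 2) := by
          rw [hv, pow_add]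
          exact mul_le_mul_of_nonneg_right h4 (by positivity)
        have h6 : v ^ θ ≤ s ξ ^ p := by
          calc v ^ θ ≤ (s ξ ^ (p + 2)) ^ θ := Real.rpow_le_rpow hv0 h5 hθ0.le
            _ = s ξ ^ (p + 1) := by
              rw [← Real.rpow_natCast, ← Real.rpow_mul k0, ← Real.rpow_natCast]
              congr 1
              push_cast
              rw [hθ]
              field_simp
            _ ≤ s ξ ^ p := pow_le_pow_of_le_one k0 k1 (by omega)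
        linarith
    calc v = v ^ (1 / ((p : ℝ) + 2)) * v ^ θ := e1
      _ ≤ δ * (s ξ ^ p + g ξ ^ (1 + 1 / (p : ℝ))) := mul_le_mul e2 e3 (Real.rpow_nonneg hv0 _) hδ
  calc ∑ ξ, g ξ * s ξ ^ 2 ≤ ∑ ξ, δ * (s ξ ^ p + g ξ ^ (1 + 1 / (p : ℝ))) := sum_le_sum fun ξ _ => hterm ξ
    _ = δ * (∑ ξ, s ξ ^ p + ∑ ξ, g ξ ^ (1 + 1 / (p : ℝ))) := by rw [← mul_sum, sum_add_distrib]
    _ ≤ _ := mul_le_mul_of_nonneg_left (add_le_add h1 h2) hδ

/-- the normalised second moment: it is bounded, and if it is not small then one frequency explains it -/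
theorem freq : ∃ p : ℕ, 1 ≤ p ∧ ∃ C : ℝ, 1 ≤ C ∧ ∃ k0 : ℕ, 2 ≤ k0 ∧ ∀ k : ℕ, k0 ≤ k → ∀ M x : ℕ, [NeZero M] → k < M → M ≤ 100 * k →
    1 ≤ x → M ≤ 16 * x ^ 2 → ∀ w f : ℕ → ℝ, (∀ n, |w n| ≤ 1) → (∀ p, |f p| ≤ 1) → ∀ δ : ℝ, 0 < δ →
      (∀ ξ : ZMod M, ‖hat (wZ f k M) ξ‖ * ‖∑ n ∈ Icc 1 x, (w n : ℂ) * (ZMod.stdAddChar (ξ * (((n : ℤ) ^ 2 : ℤ) : ZMod M)) : ℂ)‖ ≤
        δ ^ (p + 1) * (x * (k / Real.log k))) →
      (M : ℝ) * ∑ a : ZMod M, (∑ n ∈ Icc 1 x, w n * wZ f k M (a + (((n : ℤ) ^ 2 : ℤ) : ZMod M))) ^ 2 ≤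
        C * δ * (x * (k / Real.log k)) ^ 2 := by
  obtain ⟨p₀, hp₀, C₁, hC₁, hW⟩ := weyl_w 16 (by norm_num)
  set P : ℕ := 2 * p₀ with hP
  have hP1 : 1 ≤ P := by omega
  have hP0 : (0 : ℝ) < P := by exact_mod_cast hP1
  obtain ⟨C₂, hC₂, k1, hk1, hR⟩ := restr_w (1 / (P : ℝ)) (by positivity) (by rw [div_le_one hP0]; exact_mod_cast hP1)
  refine ⟨p₀, hp₀, C₁ + C₂ + 1, by linarith, k1 + 2, by omega, ?_⟩
  intro k hk M x hM hkM hM100 hx hMx w f hw hf δ hδ hb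
  have hkpos : (0 : ℝ) < k := by exact_mod_cast (by omega : 0 < k)
  have hlk : 0 < Real.log k := Real.log_pos (by exact_mod_cast (by omega : 1 < k))
  have hxpos : (0 : ℝ) < x := by exact_mod_cast hx
  set g : ZMod M → ℝ := fun ξ => ‖hat (wZ f k M) ξ‖ ^ 2 * (Real.log k / k) ^ 2 with hg
  set s : ZMod M → ℝ := fun t => ‖∑ n ∈ Icc 1 x, (w n : ℂ) * (ZMod.stdAddChar (t * (((n : ℤ) ^ 2 : ℤ) : ZMod M)) : ℂ)‖ / x with hs
  have hs1 : ∀ t, s t ≤ 1 := by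
    intro t
    simp only [hs]
    rw [div_le_one hxpos]
    calc _ ≤ ∑ n ∈ Icc 1 x, ‖(w n : ℂ) * (ZMod.stdAddChar (t * (((n : ℤ) ^ 2 : ℤ) : ZMod M)) : ℂ)‖ := norm_sum_le _ _
      _ ≤ ∑ n ∈ Icc 1 x, 1 := by
        apply sum_le_sum
        intro n _
        rw [norm_mul, norm_chi, mul_one, Complex.norm_real, Real.norm_eq_abs]
        exact hw n
      _ = x := by simp
  have hs0 : ∀ t, 0 ≤ s t := fun t => by simp only [hs]; positivity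
  have h1 : ∑ t, s t ^ P ≤ C₁ := hW x M hx hMx w hw
  have h2 : ∑ ξ, g ξ ^ (1 + 1 / (P : ℝ)) ≤ C₂ := hR k (by omega) M hkM hM100 f hf
  have hmix := mix2 g s P hP1 δ C₁ C₂ hδ.le (fun ξ => by simp only [hg]; positivity) hs0 hs1
    (fun ξ => by
      have h3 := hb ξ
      have h4 : g ξ * s ξ ^ 2 = (‖hat (wZ f k M) ξ‖ * ‖∑ n ∈ Icc 1 x, (w n : ℂ) * (ZMod.stdAddChar (ξ * (((n : ℤ) ^ 2 : ℤ) : ZMod M)) : ℂ)‖) ^ 2 /
          (x * (k / Real.log k)) ^ 2 := by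
        simp only [hg, hs]
        field_simp
      rw [h4, div_le_iff₀ (by positivity)]
      calc _ ≤ (δ ^ (p₀ + 1) * (x * (k / Real.log k))) ^ 2 := pow_le_pow_left₀ (by positivity) h3 2
        _ = δ ^ (P + 2) * (x * (k / Real.log k)) ^ 2 := by
          rw [hP]; ring) h1 h2
  rw [second_w]
  have h5 : ∑ ξ : ZMod M, ‖hat (wZ f k M) ξ‖ ^ 2 * ‖∑ n ∈ Icc 1 x, (w n : ℂ) * (ZMod.stdAddChar (ξ * (((n : ℤ) ^ 2 : ℤ) : ZMod M)) : ℂ)‖ ^ 2 =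
      (∑ ξ, g ξ * s ξ ^ 2) * (x * (k / Real.log k)) ^ 2 := by
    rw [sum_mul]
    apply sum_congr rfl
    intro ξ _
    simp only [hg, hs]
    field_simp
  rw [h5]
  apply mul_le_mul_of_nonneg_right _ (by positivity)
  calc _ ≤ δ * (C₁ + C₂) := hmix
    _ ≤ _ := by nlinarith

end Pool.Agent.W5h22.JW
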