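import Mathlib
import Pool.Agent.W5h22.PV.E
import Pool.Agent.W5h22.JW.A

set_option autoImplicit false

/-! Weights on the squares and on the primes: large correlations for many shifts and a common frequency. -/

namespace Pool.Agent.W5h22.JW
open Finset Polynomial Filter Topology
open Pool.Agent.Helper602.MK
open Pool.Agent.Helper602.MK.N_J5b (ee_add ee_zero ee_conj norm_ee ee_int norm_one_sub_ee)
open Pool.Agent.H373R2.NB
open Pool.Agent.W5h22.PV

/-- the weight `f` at the primes `≤ X` -/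
noncomputable def pq (f : ℕ → ℝ) (X : ℕ) (v : ℤ) : ℝ := if v.toNat ∈ (Icc 1 X).filter Nat.Prime then f v.toNat else 0

/-- the correlation -/
noncomputable def cr (w f : ℕ → ℝ) (X : ℕ) (a : ℤ) : ℝ := ∑ n ∈ Icc 1 (Nat.sqrt X), w n * pq f X ((n : ℤ) ^ 2 + a)

/-- the quadratic exponential sum -/
noncomputable def SS (w : ℕ → ℝ) (X : ℕ) (θ : ℝ) : ℂ := ∑ n ∈ Icc 1 (Nat.sqrt X), (w n : ℂ) * ee (θ * (n : ℝ) ^ 2)

/-- the exponential sum over the primes -/
noncomputable def TT (f : ℕ → ℝ) (X : ℕ) (θ : ℝ) : ℂ := ∑ p ∈ (Icc 1 X).filter Nat.Prime, (f p : ℂ) * ee (θ * p)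

/-- the correlation with the primes in `(√X, X]` only -/
noncomputable def rk (w f : ℕ → ℝ) (X : ℕ) (a : ℤ) : ℝ := ∑ n ∈ Icc 1 (Nat.sqrt X), w n * pk f X ((n : ℤ) ^ 2 + a)

/-- the number of the small values -/
noncomputable def sc (X : ℕ) (a : ℤ) : ℝ :=
  (#((Icc 1 (Nat.sqrt X)).filter (fun n : ℕ => 1 ≤ (n : ℤ) ^ 2 + a ∧ (n : ℤ) ^ 2 + a ≤ (Nat.sqrt X : ℕ))) : ℝ)

lemma pq_sub_pk (f : ℕ → ℝ) (hf : ∀ p, |f p| ≤ 1) (X : ℕ) (v : ℤ) :
    |pq f X v - pk f X v| ≤ if 1 ≤ v ∧ v ≤ (Nat.sqrt X : ℕ) then 1 else 0 := by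
  unfold pq pk
  by_cases hp : v.toNat ∈ (Icc 1 X).filter Nat.Prime
  · rw [if_pos hp]
    by_cases hk : v.toNat ∈ PP X
    · rw [if_pos hk, sub_self, abs_zero]
      split_ifs <;> norm_num
    · rw [if_neg hk, sub_zero, if_pos]
      · exact hf _
      · rw [mem_PP] at hk
        rw [mem_filter, mem_Icc] at hp
        have hpos := hp.2.pos
        have h1 : v.toNat ^ 2 ≤ X := by
          by_contra hcon
          exact hk ⟨hp.1.2, hp.2, by omega⟩
        have h2 := Nat.le_sqrt'.2 h1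
        omega
  · rw [if_neg hp, if_neg (fun h => hp (by
      rw [mem_PP] at h
      rw [mem_filter, mem_Icc]
      exact ⟨⟨h.2.1.one_lt.le, h.1⟩, h.2.1⟩)), sub_self, abs_zero]
    split_ifs <;> norm_num

lemma cr_sub_rk (w f : ℕ → ℝ) (hw : ∀ n, |w n| ≤ 1) (hf : ∀ p, |f p| ≤ 1) (X : ℕ) (a : ℤ) :
    |cr w f X a - rk w f X a| ≤ sc X a := by
  unfold cr rk sc
  rw [← sum_sub_distrib]
  refine (abs_sum_le_sum_abs _ _).trans ?_
  rw [card_filter]
  push_cast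
  apply sum_le_sum
  intro n _
  rw [← mul_sub, abs_mul]
  calc |w n| * |pq f X ((n : ℤ) ^ 2 + a) - pk f X ((n : ℤ) ^ 2 + a)| ≤
      1 * (if 1 ≤ (n : ℤ) ^ 2 + a ∧ (n : ℤ) ^ 2 + a ≤ (Nat.sqrt X : ℕ) then (1 : ℝ) else 0) :=
        mul_le_mul (hw n) (pq_sub_pk f hf X _) (abs_nonneg _) zero_le_one
    _ = _ := by rw [one_mul]

lemma sc_sum (X : ℕ) : ∑ a ∈ Icc (-(X : ℤ)) X, sc X a ≤ X := by
  have h1 := small_values (Polynomial.X ^ 2 : ℤ[X]) X (Nat.sqrt X) (Nat.sqrt X) 1 (Or.inl rfl)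
  simp only [eval_pow, eval_X, one_mul] at h1
  unfold sc
  have h2 : (Nat.sqrt X : ℝ) * Nat.sqrt X ≤ X := by
    have := Nat.sqrt_le' X
    rw [sq] at this
    exact_mod_cast this
  refine le_trans (le_of_eq ?_) (h1.trans h2)
  apply sum_congr rfl
  intro a _
  simp only [add_comm a]

lemma sc_le (X : ℕ) (a : ℤ) : sc X a ≤ Nat.sqrt X := by
  unfold sc
  have h := card_filter_le (Icc 1 (Nat.sqrt X)) (fun n : ℕ => 1 ≤ (n : ℤ) ^ 2 + a ∧ (n : ℤ) ^ 2 + a ≤ (Nat.sqrt X : ℕ))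
  rw [Nat.card_Icc, Nat.add_sub_cancel] at h
  exact_mod_cast h

lemma sc_nonneg (X : ℕ) (a : ℤ) : 0 ≤ sc X a := by unfold sc; positivity

/-- the second moment over the integers is at most the one over `ZMod (4 X)` -/
lemma rk_embed (w f : ℕ → ℝ) (X : ℕ) (hX : 1 ≤ X) [NeZero (4 * X)] :
    ∑ a ∈ Icc (-(X : ℤ)) X, rk w f X a ^ 2 ≤
      ∑ a : ZMod (4 * X), (∑ n ∈ Icc 1 (Nat.sqrt X), w n * wZ f X (4 * X) (a + (((n : ℤ) ^ 2 : ℤ) : ZMod (4 * X)))) ^ 2 := by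
  have h1 := sum_embed (M := 4 * X) X (by omega) 1 (Or.inl rfl)
    (fun a => (∑ n ∈ Icc 1 (Nat.sqrt X), w n * wZ f X (4 * X) (a + (((n : ℤ) ^ 2 : ℤ) : ZMod (4 * X)))) ^ 2) (fun a => sq_nonneg _)
  refine le_trans (le_of_eq ?_) h1
  apply sum_congr rfl
  intro a ha
  rw [mem_Icc] at ha
  congr 1
  unfold rk
  apply sum_congr rfl
  intro n hn
  rw [mem_Icc] at hn
  have hn2 : (n : ℤ) ^ 2 ≤ X := by
    have : n ^ 2 ≤ X := (Nat.pow_le_pow_left hn.2 2).trans (Nat.sqrt_le' X)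
    exact_mod_cast this
  have hn0 : (0 : ℤ) ≤ (n : ℤ) ^ 2 := sq_nonneg _
  congr 1
  rw [← wZ_int (M := 4 * X) f X ((n : ℤ) ^ 2 + a) (by push_cast; linarith [ha.1]) (by push_cast; linarith [ha.2])]
  congr 1
  push_cast
  ring

lemma hat_TT (f : ℕ → ℝ) (hf : ∀ p, |f p| ≤ 1) (X M : ℕ) [NeZero M] (hX : X < M) (ξ : ZMod M) :
    ‖hat (wZ f X M) ξ‖ ≤ ‖TT f X ((ξ.val : ℝ) / M)‖ + Nat.sqrt X := by
  rw [hat_wZ f X hX ξ]
  have hsub : PP X ⊆ (Icc 1 X).filter Nat.Prime := by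
    intro p hp
    rw [mem_PP] at hp
    rw [mem_filter, mem_Icc]
    exact ⟨⟨hp.2.1.one_lt.le, hp.1⟩, hp.2.1⟩
  have h1 : TT f X ((ξ.val : ℝ) / M) = ∑ p ∈ PP X, (f p : ℂ) * ee ((ξ.val : ℝ) * p / M) +
      ∑ p ∈ (Icc 1 X).filter Nat.Prime \ PP X, (f p : ℂ) * ee ((ξ.val : ℝ) * p / M) := by
    unfold TT
    rw [add_comm, sum_sdiff hsub]
    apply sum_congr rfl
    intro p _
    congr 2
    ring
  have h2 : ‖∑ p ∈ (Icc 1 X).filter Nat.Prime \ PP X, (f p : ℂ) * ee ((ξ.val : ℝ) * p / M)‖ ≤ Nat.sqrt X := by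
    calc _ ≤ ∑ p ∈ (Icc 1 X).filter Nat.Prime \ PP X, ‖(f p : ℂ) * ee ((ξ.val : ℝ) * p / M)‖ := norm_sum_le _ _
      _ ≤ ∑ _p ∈ (Icc 1 X).filter Nat.Prime \ PP X, (1 : ℝ) := by
        apply sum_le_sum
        intro p _
        rw [norm_mul, norm_ee, mul_one, Complex.norm_real, Real.norm_eq_abs]
        exact hf p
      _ = #((Icc 1 X).filter Nat.Prime \ PP X) := by rw [sum_const, nsmul_eq_mul, mul_one]
      _ ≤ Nat.sqrt X := by
        have h3 : (Icc 1 X).filter Nat.Prime \ PP X ⊆ Icc 1 (Nat.sqrt X) := by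
          intro p hp
          rw [Finset.mem_sdiff, mem_filter, mem_Icc, mem_PP] at hp
          rw [mem_Icc]
          refine ⟨hp.1.1.1, Nat.le_sqrt'.2 ?_⟩
          by_contra hcon
          exact hp.2 ⟨hp.1.1.2, hp.1.2, by omega⟩
        have h4 := card_le_card h3
        rw [Nat.card_Icc, Nat.add_sub_cancel] at h4
        exact_mod_cast h4
  have h3 : ∑ p ∈ PP X, (f p : ℂ) * ee ((ξ.val : ℝ) * p / M) = TT f X ((ξ.val : ℝ) / M) -
      ∑ p ∈ (Icc 1 X).filter Nat.Prime \ PP X, (f p : ℂ) * ee ((ξ.val : ℝ) * p / M) := by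
    rw [h1]; ring
  rw [h3]
  exact (norm_sub_le _ _).trans (add_le_add le_rfl h2)

lemma SS_chi (w : ℕ → ℝ) (X M : ℕ) [NeZero M] (ξ : ZMod M) :
    ∑ n ∈ Icc 1 (Nat.sqrt X), (w n : ℂ) * (ZMod.stdAddChar (ξ * (((n : ℤ) ^ 2 : ℤ) : ZMod M)) : ℂ) = SS w X ((ξ.val : ℝ) / M) := by
  unfold SS
  apply sum_congr rfl
  intro n _
  rw [chi_eq_int]
  congr 2
  push_cast
  ring

lemma SS_le (w : ℕ → ℝ) (hw : ∀ n, |w n| ≤ 1) (X : ℕ) (θ : ℝ) : ‖SS w X θ‖ ≤ Nat.sqrt X := by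
  unfold SS
  calc _ ≤ ∑ n ∈ Icc 1 (Nat.sqrt X), ‖(w n : ℂ) * ee (θ * (n : ℝ) ^ 2)‖ := norm_sum_le _ _
    _ ≤ ∑ _n ∈ Icc 1 (Nat.sqrt X), (1 : ℝ) := by
      apply sum_le_sum
      intro n _
      rw [norm_mul, norm_ee, mul_one, Complex.norm_real, Real.norm_eq_abs]
      exact hw n
    _ = _ := by simp

lemma TT_le (f : ℕ → ℝ) (hf : ∀ p, |f p| ≤ 1) (X : ℕ) (θ : ℝ) : ‖TT f X θ‖ ≤ #((Icc 1 X).filter Nat.Prime) := by
  unfold TT
  calc _ ≤ ∑ p ∈ (Icc 1 X).filter Nat.Prime, ‖(f p : ℂ) * ee (θ * p)‖ := norm_sum_le _ _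
    _ ≤ ∑ _p ∈ (Icc 1 X).filter Nat.Prime, (1 : ℝ) := by
      apply sum_le_sum
      intro n _
      rw [norm_mul, norm_ee, mul_one, Complex.norm_real, Real.norm_eq_abs]
      exact hf n
    _ = _ := by simp

/-- `log ^ 2` against the square root -/
lemma evt_log_sq (c : ℝ) (hc : 0 < c) : ∀ᶠ X : ℕ in atTop, Real.log X ^ 2 ≤ c * Real.sqrt X := by
  have h1 := (isLittleO_log_rpow_atTop (show (0 : ℝ) < 1 / 4 by norm_num)).bound (show 0 < Real.sqrt c by positivity)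
  have h2 := tendsto_natCast_atTop_atTop (R := ℝ) |>.eventually h1
  filter_upwards [h2, eventually_ge_atTop 1] with X hX hX1
  have hX0 : (0 : ℝ) ≤ X := Nat.cast_nonneg _
  have hlog0 : 0 ≤ Real.log (X : ℝ) := Real.log_natCast_nonneg X
  rw [Real.norm_of_nonneg hlog0, Real.norm_of_nonneg (by positivity)] at hX
  calc Real.log X ^ 2 ≤ (Real.sqrt c * (X : ℝ) ^ (1 / 4 : ℝ)) ^ 2 := pow_le_pow_left₀ hlog0 hX 2
    _ = c * Real.sqrt X := by
      rw [mul_pow, Real.sq_sqrt hc.le, Real.sqrt_eq_rpow, ← Real.rpow_natCast, ← Real.rpow_mul hX0]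
      norm_num

/-- the mean square of the correlation, if no frequency is large in both -/
theorem mean_sq : ∃ p : ℕ, 1 ≤ p ∧ ∃ C : ℝ, 1 ≤ C ∧ ∀ δ : ℝ, 0 < δ → ∀ᶠ X : ℕ in atTop, ∀ w f : ℕ → ℝ, (∀ n, |w n| ≤ 1) → (∀ p, |f p| ≤ 1) →
    (∀ θ : ℝ, ‖SS w X θ‖ * ‖TT f X θ‖ ≤ δ ^ (p + 1) / 4 * (Real.sqrt X * (X / Real.log X))) →
      ∑ a ∈ Icc (-(X : ℤ)) X, rk w f X a ^ 2 ≤ C * δ * (X / Real.log X) ^ 2 := by
  obtain ⟨p, hp, C, hC, k0, hk0, hfreq⟩ := freq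
  refine ⟨p, hp, C, hC, ?_⟩
  intro δ hδ
  filter_upwards [evt_sqrt_log 2 (δ ^ (p + 1)) (by positivity), eventually_ge_atTop (k0 + 16)] with X hsq hX
  intro w f hw hf hb
  have hXr : (16 : ℝ) ≤ X := by exact_mod_cast (by omega : 16 ≤ X)
  have hX0 : (0 : ℝ) < X := by linarith
  have hlX : 0 < Real.log X := Real.log_pos (by linarith)
  have : NeZero (4 * X) := ⟨by omega⟩
  set x := Nat.sqrt X with hx
  have hx1 : x ^ 2 ≤ X := Nat.sqrt_le' X
  have hx2 : X < (x + 1) ^ 2 := Nat.lt_succ_sqrt' X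
  have hx4 : 4 ≤ x := by
    rw [hx, Nat.le_sqrt']
    omega
  have hX4 : X ≤ 4 * x ^ 2 := by nlinarith
  have hx0 : (0 : ℝ) < x := by exact_mod_cast (by omega : 0 < x)
  have hxs : (x : ℝ) ≤ Real.sqrt X := Real.nat_sqrt_le_real_sqrt
  have hs0 : 0 < Real.sqrt X := Real.sqrt_pos.2 hX0
  have hsqrt : Real.sqrt X ≤ 2 * x := by
    rw [Real.sqrt_le_left (by positivity)]
    have : X ≤ (2 * x) ^ 2 := by nlinarith
    exact_mod_cast this
  have h1 := hfreq X (by omega) (4 * X) x (by omega) (by omega) (by omega) (by omega) w f hw hf δ hδ (by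
    intro ξ
    rw [SS_chi w X (4 * X) ξ]
    have h2 := hat_TT f hf X (4 * X) (by omega) ξ
    have h3 := SS_le w hw X ((ξ.val : ℝ) / (4 * X : ℕ))
    have h4 := hb ((ξ.val : ℝ) / (4 * X : ℕ))
    calc ‖hat (wZ f X (4 * X)) ξ‖ * ‖SS w X ((ξ.val : ℝ) / (4 * X : ℕ))‖ ≤
        (‖TT f X ((ξ.val : ℝ) / (4 * X : ℕ))‖ + x) * ‖SS w X ((ξ.val : ℝ) / (4 * X : ℕ))‖ :=
          mul_le_mul_of_nonneg_right h2 (norm_nonneg _)
      _ = ‖SS w X ((ξ.val : ℝ) / (4 * X : ℕ))‖ * ‖TT f X ((ξ.val : ℝ) / (4 * X : ℕ))‖ + x * ‖SS w X ((ξ.val : ℝ) / (4 * X : ℕ))‖ := by ring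
      _ ≤ δ ^ (p + 1) / 4 * (Real.sqrt X * (X / Real.log X)) + x * x := by
          apply add_le_add h4
          exact mul_le_mul_of_nonneg_left h3 hx0.le
      _ ≤ δ ^ (p + 1) / 4 * (2 * x * (X / Real.log X)) + x * (δ ^ (p + 1) / 2 * (X / Real.log X)) := by
          apply add_le_add
          · apply mul_le_mul_of_nonneg_left _ (by positivity)
            exact mul_le_mul_of_nonneg_right hsqrt (by positivity)
          · apply mul_le_mul_of_nonneg_left _ hx0.le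
            rw [← mul_div_assoc, le_div_iff₀ hlX]
            have h5 : Real.sqrt X ≤ Real.sqrt (3 * X) + 1 := by
              have := Real.sqrt_le_sqrt (show (X : ℝ) ≤ 3 * X by linarith)
              linarith
            have h6 : 2 * ((x : ℝ) * Real.log X) ≤ δ ^ (p + 1) * X := by
              calc 2 * ((x : ℝ) * Real.log X) = 2 * (x : ℝ) * Real.log X := by ring
                _ ≤ 2 * (Real.sqrt (3 * X) + 1) * Real.log X := by
                  apply mul_le_mul_of_nonneg_right _ hlX.le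
                  linarith
                _ ≤ _ := hsq
            linarith
      _ = δ ^ (p + 1) * (x * (X / Real.log X)) := by ring)
  have h2 := rk_embed w f X (by omega)
  rw [← hx] at h2
  set Sg := ∑ a : ZMod (4 * X), (∑ n ∈ Icc 1 x, w n * wZ f X (4 * X) (a + (((n : ℤ) ^ 2 : ℤ) : ZMod (4 * X)))) ^ 2 with hSg
  refine h2.trans ?_
  have h3 : ((4 * X : ℕ) : ℝ) * Sg ≤ ((4 * X : ℕ) : ℝ) * (C * δ * (X / Real.log X) ^ 2) := by
    refine h1.trans ?_
    have h4 : (x : ℝ) ^ 2 ≤ X := by exact_mod_cast hx1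
    calc C * δ * (x * (X / Real.log X)) ^ 2 = x ^ 2 * (C * δ * (X / Real.log X) ^ 2) := by ring
      _ ≤ ((4 * X : ℕ) : ℝ) * (C * δ * (X / Real.log X) ^ 2) := by
        apply mul_le_mul_of_nonneg_right _ (by positivity)
        push_cast
        linarith
  exact le_of_mul_le_mul_left h3 (by push_cast; positivity)

/-- **the inverse theorem** -/
theorem inverse : ∃ K : ℕ, ∃ C : ℝ, 1 ≤ C ∧ ∀ ε : ℝ, 0 < ε → ε ≤ 1 → ∀ᶠ X : ℕ in atTop, ∀ w f : ℕ → ℝ, (∀ n, |w n| ≤ 1) → (∀ p, |f p| ≤ 1) →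
    (∀ θ : ℝ, ‖SS w X θ‖ * ‖TT f X θ‖ ≤ (ε / C) ^ K * (Real.sqrt X * (X / Real.log X))) →
      (#((Icc (-(X : ℤ)) X).filter (fun a => ε * (Real.sqrt X / Real.log X) < |cr w f X a|)) : ℝ) ≤ ε * X := by
  obtain ⟨p, hp, C₀, hC₀, hms⟩ := mean_sq
  refine ⟨3 * (p + 1), 16 * C₀, by linarith, ?_⟩
  intro ε hε hε1
  set δ : ℝ := ε ^ 3 / (8 * C₀) with hδ
  have hδ0 : 0 < δ := by positivity
  filter_upwards [hms δ hδ0, evt_log_sq (ε ^ 4 / 16) (by positivity), eventually_ge_atTop 16] with X hX1 hX2 hX3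
  intro w f hw hf hb
  have hXr : (16 : ℝ) ≤ X := by exact_mod_cast hX3
  have hX0 : (0 : ℝ) < X := by linarith
  have hlX : 0 < Real.log X := Real.log_pos (by linarith)
  have hlX1 : 1 ≤ Real.log X := by
    rw [Real.le_log_iff_exp_le hX0]
    have := Real.exp_one_lt_d9
    linarith
  have hs0 : 0 < Real.sqrt X := Real.sqrt_pos.2 hX0
  have hss : Real.sqrt X * Real.sqrt X = X := Real.mul_self_sqrt hX0.le
  have h1 := hX1 w f hw hf (by
    intro θ
    refine (hb θ).trans ?_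
    apply mul_le_mul_of_nonneg_right _ (by positivity)
    rw [pow_mul, hδ, le_div_iff₀ (by norm_num)]
    have h2 : (ε / (16 * C₀)) ^ 3 ≤ ε ^ 3 / (8 * C₀) / 4 := by
      rw [div_pow, div_div, div_le_div_iff_of_pos_left (by positivity) (by positivity) (by positivity)]
      have : C₀ ≤ C₀ ^ 3 := by
        calc C₀ = C₀ * 1 := by ring
          _ ≤ C₀ * C₀ ^ 2 := mul_le_mul_of_nonneg_left (one_le_pow₀ hC₀) (by linarith)
          _ = _ := by ring
      nlinarith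
    calc ((ε / (16 * C₀)) ^ 3) ^ (p + 1) * 4 ≤ (ε ^ 3 / (8 * C₀) / 4) ^ (p + 1) * 4 := by
          apply mul_le_mul_of_nonneg_right _ (by norm_num)
          exact pow_le_pow_left₀ (by positivity) h2 _
      _ = (ε ^ 3 / (8 * C₀)) ^ (p + 1) * (4 / 4 ^ (p + 1)) := by rw [div_pow]; ring
      _ ≤ (ε ^ 3 / (8 * C₀)) ^ (p + 1) * 1 := by
          apply mul_le_mul_of_nonneg_left _ (by positivity)
          rw [div_le_one (by positivity)]
          calc (4 : ℝ) = 4 ^ 1 := by norm_num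
            _ ≤ 4 ^ (p + 1) := pow_le_pow_right₀ (by norm_num) (by omega)
      _ = _ := by ring)
  set U := Real.sqrt X / Real.log X with hU
  have hU0 : 0 < U := by positivity
  have hsub : (Icc (-(X : ℤ)) X).filter (fun a => ε * U < |cr w f X a|) ⊆
      (Icc (-(X : ℤ)) X).filter (fun a => (ε / 2 * U) ^ 2 < rk w f X a ^ 2) ∪
      (Icc (-(X : ℤ)) X).filter (fun a => ε / 4 * U < sc X a) := by
    intro a ha
    rw [mem_filter] at ha
    rw [mem_union, mem_filter, mem_filter]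
    by_contra hcon
    rw [not_or] at hcon
    have h2 : rk w f X a ^ 2 ≤ (ε / 2 * U) ^ 2 := by
      by_contra h; exact hcon.1 ⟨ha.1, not_le.1 h⟩
    have h3 : sc X a ≤ ε / 4 * U := by
      by_contra h; exact hcon.2 ⟨ha.1, not_le.1 h⟩
    have h4 : |rk w f X a| ≤ ε / 2 * U := abs_le_of_sq_le_sq h2 (by positivity)
    have h5 := cr_sub_rk w f hw hf X a
    have h6 : |cr w f X a| ≤ |cr w f X a - rk w f X a| + |rk w f X a| := by
      have := abs_add_le (cr w f X a - rk w f X a) (rk w f X a)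
      rwa [sub_add_cancel] at this
    have h7 : ε / 4 * U + ε / 2 * U < ε * U := by nlinarith [mul_pos hε hU0]
    linarith [ha.2]
  have h2 := (card_le_card hsub).trans (card_union_le _ _)
  have h3 := markov (Icc (-(X : ℤ)) X) (fun a => rk w f X a ^ 2) ((ε / 2 * U) ^ 2) (fun a _ => sq_nonneg _)
  have h4 := markov (Icc (-(X : ℤ)) X) (fun a => sc X a) (ε / 4 * U) (fun a _ => sc_nonneg X a)
  have h5 : (#((Icc (-(X : ℤ)) X).filter (fun a => (ε / 2 * U) ^ 2 < rk w f X a ^ 2)) : ℝ) ≤ ε / 2 * X := by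
    have h6 : (#((Icc (-(X : ℤ)) X).filter (fun a => (ε / 2 * U) ^ 2 < rk w f X a ^ 2)) : ℝ) * (ε / 2 * U) ^ 2 ≤ (ε / 2 * X) * (ε / 2 * U) ^ 2 := by
      refine (h3.trans h1).trans (le_of_eq ?_)
      rw [hU, hδ]
      field_simp
      rw [← sq] at hss
      have h7 : Real.sqrt X ^ 2 = X := hss
      rw [h7]
      ring
    exact le_of_mul_le_mul_right h6 (by positivity)
  have h6 : (#((Icc (-(X : ℤ)) X).filter (fun a => ε / 4 * U < sc X a)) : ℝ) ≤ ε / 2 * X := by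
    have h7 : (#((Icc (-(X : ℤ)) X).filter (fun a => ε / 4 * U < sc X a)) : ℝ) * (ε / 4 * U) ≤ (ε / 2 * X) * (ε / 4 * U) := by
      refine (h4.trans (sc_sum X)).trans ?_
      have h8 : 8 * Real.log X ≤ ε ^ 2 * Real.sqrt X := by
        have h9 : (8 * Real.log X) ^ 2 ≤ (ε ^ 2 * Real.sqrt X) ^ 2 := by
          have h10 : ε ^ 4 / 16 * Real.sqrt X ≤ ε ^ 4 * X / 64 := by
            have : 4 ≤ Real.sqrt X := by
              rw [Real.le_sqrt' (by norm_num)]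
              linarith
            have : 4 * Real.sqrt X ≤ X := by nlinarith
            have h11 : 0 < ε ^ 4 := by positivity
            nlinarith
          calc (8 * Real.log X) ^ 2 = 64 * Real.log X ^ 2 := by ring
            _ ≤ 64 * (ε ^ 4 * X / 64) := mul_le_mul_of_nonneg_left (hX2.trans h10) (by norm_num)
            _ = (ε ^ 2 * Real.sqrt X) ^ 2 := by rw [mul_pow, Real.sq_sqrt hX0.le]; ring
        exact abs_le_of_sq_le_sq h9 (by positivity) |> (le_abs_self _).trans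
      rw [hU]
      have h12 : (ε / 2 * X) * (ε / 4 * (Real.sqrt X / Real.log X)) = X * (ε ^ 2 * Real.sqrt X / (8 * Real.log X)) := by
        field_simp
        norm_num
      rw [h12]
      have h13 : 1 ≤ ε ^ 2 * Real.sqrt X / (8 * Real.log X) := by
        rw [le_div_iff₀ (by positivity)]
        linarith
      nlinarith
    exact le_of_mul_le_mul_right h7 (by positivity)
  have h7 : (#((Icc (-(X : ℤ)) X).filter (fun a => ε * U < |cr w f X a|)) : ℝ) ≤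
      #((Icc (-(X : ℤ)) X).filter (fun a => (ε / 2 * U) ^ 2 < rk w f X a ^ 2)) +
      #((Icc (-(X : ℤ)) X).filter (fun a => ε / 4 * U < sc X a)) := by exact_mod_cast h2
  linarith

/-- the Fourier transform of the correlation -/
lemma fourier (w f : ℕ → ℝ) (X : ℕ) (θ : ℝ) :
    ∑ a ∈ Icc (-(X : ℤ)) X, (cr w f X a : ℂ) * ee (θ * a) = (starRingEnd ℂ) (SS w X θ) * TT f X θ := by
  have h1 : ∀ n ∈ Icc 1 (Nat.sqrt X), ∑ a ∈ Icc (-(X : ℤ)) X, (pq f X ((n : ℤ) ^ 2 + a) : ℂ) * ee (θ * ((n : ℤ) ^ 2 + a : ℤ)) = TT f X θ := by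
    intro n hn
    rw [mem_Icc] at hn
    have hn2 : (n : ℤ) ^ 2 ≤ X := by
      have : n ^ 2 ≤ X := (Nat.pow_le_pow_left hn.2 2).trans (Nat.sqrt_le' X)
      exact_mod_cast this
    have hn0 : (0 : ℤ) ≤ (n : ℤ) ^ 2 := sq_nonneg _
    unfold TT
    symm
    apply sum_of_injOn (fun p : ℕ => (p : ℤ) - (n : ℤ) ^ 2)
    · intro a _ b _ hab
      simp only at hab
      omega
    · intro p hp
      rw [mem_coe, mem_filter, mem_Icc] at hp
      rw [mem_coe, mem_Icc]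
      constructor
      · show -(X : ℤ) ≤ (p : ℤ) - (n : ℤ) ^ 2
        omega
      · show (p : ℤ) - (n : ℤ) ^ 2 ≤ X
        omega
    · intro a ha hna
      have h2 : pq f X ((n : ℤ) ^ 2 + a) = 0 := by
        unfold pq
        rw [if_neg]
        intro h
        apply hna
        refine ⟨((n : ℤ) ^ 2 + a).toNat, by rw [mem_coe]; exact h, ?_⟩
        rw [mem_filter, mem_Icc] at h
        simp only
        omega
      rw [h2]
      simp
    · intro p hp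
      rw [mem_filter, mem_Icc] at hp
      have h2 : (n : ℤ) ^ 2 + ((p : ℤ) - (n : ℤ) ^ 2) = p := by ring
      rw [h2]
      unfold pq
      rw [Int.toNat_natCast, if_pos (by rw [mem_filter, mem_Icc]; exact hp)]
      push_cast
      rfl
  calc ∑ a ∈ Icc (-(X : ℤ)) X, (cr w f X a : ℂ) * ee (θ * a) =
      ∑ a ∈ Icc (-(X : ℤ)) X, ∑ n ∈ Icc 1 (Nat.sqrt X), ((w n : ℂ) * ee (-(θ * (n : ℝ) ^ 2))) * ((pq f X ((n : ℤ) ^ 2 + a) : ℂ) * ee (θ * ((n : ℤ) ^ 2 + a : ℤ))) := by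
        apply sum_congr rfl
        intro a _
        unfold cr
        push_cast
        rw [sum_mul]
        apply sum_congr rfl
        intro n _
        have h2 : ee (θ * a) = ee (-(θ * (n : ℝ) ^ 2)) * ee (θ * ((n : ℝ) ^ 2 + a)) := by
          rw [← ee_add]
          congr 1
          ring
        rw [h2]
        ring
    _ = ∑ n ∈ Icc 1 (Nat.sqrt X), ((w n : ℂ) * ee (-(θ * (n : ℝ) ^ 2))) * TT f X θ := by
        rw [sum_comm]
        apply sum_congr rfl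
        intro n hn
        rw [← mul_sum, h1 n hn]
    _ = _ := by
        rw [← sum_mul]
        congr 1
        unfold SS
        rw [map_sum]
        apply sum_congr rfl
        intro n _
        rw [map_mul, Complex.conj_ofReal, ee_conj]

/-- **the converse** -/
theorem converse : ∃ C : ℝ, 1 ≤ C ∧ ∀ ε : ℝ, 0 < ε → ∀ᶠ X : ℕ in atTop, ∀ w f : ℕ → ℝ, (∀ n, |w n| ≤ 1) → (∀ p, |f p| ≤ 1) →
    ∀ θ : ℝ, ε * (Real.sqrt X * (X / Real.log X)) ≤ ‖SS w X θ‖ * ‖TT f X θ‖ →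
      ε ^ 2 / C * X ≤ (#((Icc (-(X : ℤ)) X).filter (fun a => ε / 6 * (Real.sqrt X / Real.log X) ≤ |cr w f X a|)) : ℝ) := by
  obtain ⟨p, hp, C₀, hC₀, hms⟩ := mean_sq
  obtain ⟨K, hK, hpl⟩ := primes_le
  set D : ℝ := 4 * K with hD
  have hD1 : 1 ≤ D := by linarith
  set C₃ : ℝ := 2 * C₀ * D + 2 with hC₃
  have hC₃0 : 2 ≤ C₃ := by
    have : 0 ≤ 2 * C₀ * D := by positivity
    linarith
  refine ⟨4 * C₃, by linarith, ?_⟩
  intro ε hε
  filter_upwards [hms D (by linarith), evt_log_sq 1 one_pos, eventually_ge_atTop 16] with X hX1 hX2 hX3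
  intro w f hw hf θ hθ
  have hXr : (16 : ℝ) ≤ X := by exact_mod_cast hX3
  have hX0 : (0 : ℝ) < X := by linarith
  have hlX : 0 < Real.log X := Real.log_pos (by linarith)
  have hs0 : 0 < Real.sqrt X := Real.sqrt_pos.2 hX0
  have hss : Real.sqrt X ^ 2 = X := Real.sq_sqrt hX0.le
  have h1 := hX1 w f hw hf (by
    intro θ
    have h2 := SS_le w hw X θ
    have h3 := (TT_le f hf X θ).trans (hpl X (by omega))
    have h4 : (Nat.sqrt X : ℝ) ≤ Real.sqrt X := Real.nat_sqrt_le_real_sqrt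
    calc ‖SS w X θ‖ * ‖TT f X θ‖ ≤ Real.sqrt X * (K * (X / Real.log X)) := mul_le_mul (h2.trans h4) h3 (norm_nonneg _) hs0.le
      _ = (D / 4) * (Real.sqrt X * (X / Real.log X)) := by rw [hD]; ring
      _ ≤ _ := by
        apply mul_le_mul_of_nonneg_right _ (by positivity)
        apply div_le_div_of_nonneg_right _ (by norm_num)
        calc D = D ^ 1 := by ring
          _ ≤ D ^ (p + 1) := pow_le_pow_right₀ hD1 (by omega))
  set U := Real.sqrt X / Real.log X with hU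
  have hU0 : 0 < U := by positivity
  -- the mean square of the correlation
  have hsq : ∑ a ∈ Icc (-(X : ℤ)) X, |cr w f X a| ^ 2 ≤ C₃ * (X / Real.log X) ^ 2 := by
    have h2 : ∀ a ∈ Icc (-(X : ℤ)) X, |cr w f X a| ^ 2 ≤ 2 * rk w f X a ^ 2 + 2 * (Nat.sqrt X * sc X a) := by
      intro a _
      have h3 := cr_sub_rk w f hw hf X a
      have h4 := sc_le X a
      have h5 := sc_nonneg X a
      have h6 : (cr w f X a - rk w f X a) ^ 2 ≤ Nat.sqrt X * sc X a := by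
        rw [← sq_abs]
        calc |cr w f X a - rk w f X a| ^ 2 ≤ sc X a ^ 2 := pow_le_pow_left₀ (abs_nonneg _) h3 2
          _ = sc X a * sc X a := by ring
          _ ≤ Nat.sqrt X * sc X a := mul_le_mul_of_nonneg_right h4 h5
      rw [sq_abs]
      nlinarith [sq_nonneg (cr w f X a - 2 * rk w f X a)]
    refine (sum_le_sum h2).trans ?_
    rw [sum_add_distrib, ← mul_sum, ← mul_sum, ← mul_sum]
    have h3 : (Nat.sqrt X : ℝ) * ∑ a ∈ Icc (-(X : ℤ)) X, sc X a ≤ (X / Real.log X) ^ 2 := by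
      calc (Nat.sqrt X : ℝ) * ∑ a ∈ Icc (-(X : ℤ)) X, sc X a ≤ Real.sqrt X * X :=
            mul_le_mul Real.nat_sqrt_le_real_sqrt (sc_sum X) (sum_nonneg fun a _ => sc_nonneg X a) hs0.le
        _ ≤ (X / Real.log X) ^ 2 := by
          rw [div_pow, le_div_iff₀ (by positivity)]
          rw [one_mul] at hX2
          calc Real.sqrt X * X * Real.log X ^ 2 ≤ Real.sqrt X * X * Real.sqrt X := mul_le_mul_of_nonneg_left hX2 (by positivity)
            _ = Real.sqrt X ^ 2 * X := by ring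
            _ = _ := by rw [hss]; ring
    have h4 : (X / Real.log X) ^ 2 * C₃ = 2 * (C₀ * D * (X / Real.log X) ^ 2) + 2 * (X / Real.log X) ^ 2 := by rw [hC₃]; ring
    linarith
  -- the mean of the correlation
  have hmean : ε * (Real.sqrt X * (X / Real.log X)) ≤ ∑ a ∈ Icc (-(X : ℤ)) X, |cr w f X a| := by
    refine hθ.trans ?_
    have h2 : ‖SS w X θ‖ * ‖TT f X θ‖ = ‖∑ a ∈ Icc (-(X : ℤ)) X, (cr w f X a : ℂ) * ee (θ * a)‖ := by
      rw [fourier, norm_mul, RCLike.norm_conj]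
    rw [h2]
    calc _ ≤ ∑ a ∈ Icc (-(X : ℤ)) X, ‖(cr w f X a : ℂ) * ee (θ * a)‖ := norm_sum_le _ _
      _ = _ := by
        apply sum_congr rfl
        intro a _
        rw [norm_mul, norm_ee, mul_one, Complex.norm_real, Real.norm_eq_abs]
  set Ef := (Icc (-(X : ℤ)) X).filter (fun a => ε / 6 * U ≤ |cr w f X a|) with hEf
  have hsplit := sum_filter_add_sum_filter_not (Icc (-(X : ℤ)) X) (fun a => ε / 6 * U ≤ |cr w f X a|) (fun a => |cr w f X a|)
  have hnot : ∑ a ∈ (Icc (-(X : ℤ)) X).filter (fun a => ¬ ε / 6 * U ≤ |cr w f X a|), |cr w f X a| ≤ ε / 2 * (X * U) := by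
    calc _ ≤ ∑ _a ∈ (Icc (-(X : ℤ)) X).filter (fun a => ¬ ε / 6 * U ≤ |cr w f X a|), ε / 6 * U := by
          apply sum_le_sum
          intro a ha
          rw [mem_filter, not_le] at ha
          exact ha.2.le
      _ = #((Icc (-(X : ℤ)) X).filter (fun a => ¬ ε / 6 * U ≤ |cr w f X a|)) * (ε / 6 * U) := by rw [sum_const, nsmul_eq_mul]
      _ ≤ (3 * X) * (ε / 6 * U) := by
          apply mul_le_mul_of_nonneg_right _ (by positivity)
          have h2 := card_filter_le (Icc (-(X : ℤ)) X) (fun a => ¬ ε / 6 * U ≤ |cr w f X a|)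
          rw [Int.card_Icc] at h2
          have h3 : ((X : ℤ) + 1 - -(X : ℤ)).toNat = 2 * X + 1 := by omega
          rw [h3] at h2
          have h4 : #((Icc (-(X : ℤ)) X).filter (fun a => ¬ ε / 6 * U ≤ |cr w f X a|)) ≤ 3 * X := by omega
          exact_mod_cast h4
      _ = _ := by ring
  have hE : ε / 2 * (X * U) ≤ ∑ a ∈ Ef, |cr w f X a| := by
    have h2 : ε * (Real.sqrt X * (X / Real.log X)) = ε / 2 * (X * U) + ε / 2 * (X * U) := by rw [hU]; ring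
    rw [← hEf] at hsplit
    linarith
  have hCS : (∑ a ∈ Ef, |cr w f X a|) ^ 2 ≤ #Ef * (C₃ * (X / Real.log X) ^ 2) := by
    calc (∑ a ∈ Ef, |cr w f X a|) ^ 2 ≤ #Ef * ∑ a ∈ Ef, |cr w f X a| ^ 2 := sq_sum_le_card_mul_sum_sq
      _ ≤ #Ef * (C₃ * (X / Real.log X) ^ 2) := by
        apply mul_le_mul_of_nonneg_left _ (Nat.cast_nonneg _)
        exact (sum_le_sum_of_subset_of_nonneg (filter_subset _ _) fun a _ _ => by positivity).trans hsq
  have h5 : (ε / 2 * (X * U)) ^ 2 ≤ #Ef * (C₃ * (X / Real.log X) ^ 2) :=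
    (pow_le_pow_left₀ (by positivity) hE 2).trans hCS
  have h6 : (ε / 2 * (X * U)) ^ 2 = (ε ^ 2 / (4 * C₃) * X) * (C₃ * (X / Real.log X) ^ 2) := by
    rw [hU]
    calc (ε / 2 * (X * (Real.sqrt X / Real.log X))) ^ 2 = ε ^ 2 / 4 * X ^ 2 * (Real.sqrt X ^ 2) / Real.log X ^ 2 := by ring
      _ = _ := by rw [hss]; field_simp
  rw [h6] at h5
  exact le_of_mul_le_mul_right h5 (by positivity)

end Pool.Agent.W5h22.JW
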