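import Mathlib
import Pool.Agent.W5h22.JW.B

set_option autoImplicit false

/-!
# Arbitrary weights on the integers `n` and on the primes `n² + a`

Let `w(n)`, `n ≤ √X`, and `f(p)`, `p ≤ X` prime, be ARBITRARY weights between `-1` and `1`. The correlation at the
shift `a` is the sum of `w(n) f(n² + a)` over the `n ≤ √X` for which `n² + a` is a prime `p ≤ X`. We show that it is
small compared to `√X / log X` for almost all shifts `|a| ≤ X` if and only if there is no real `θ` for which both
`∑ w(n) e(θ n²)` and `∑ f(p) e(θ p)` are large, with polynomial dependence between all the constants, in both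
directions. So the local obstructions are the only ones: for instance, if the weight `w` has no large correlation
with a pure quadratic phase (such as the Möbius function) then for EVERY set `P` of primes the sum of `w(n)` over the
`n ≤ √X` with `n² + a ∈ P` is `o(√X / log X)` for almost all `a`.

Proof. The second moment over all shifts modulo `4X` is the mean value of the product of the squares of the two
exponential sums. The moments of the weighted quadratic sum of a high even order are at most those of the Weyl
sum, which are bounded; the moments of order `2 + η` of the weighted sum over the primes are bounded, for every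
`η > 0` (large sieve for few points, due to Ramaré and Ruzsa). An inequality of Young's type gives the result.
-/

namespace Pool.Agent.Results.MP_391708_nt.JointWeights

open Finset Filter Topology

/-- The primes `p ≤ X`. -/
def primes (X : ℕ) : Finset ℕ := (Icc 1 X).filter Nat.Prime

/-- The correlation: the sum of `w(n) f(p)` over the `n`, `1 ≤ n ≤ √X`, for which `p = n² + a` is a prime `≤ X`. -/
noncomputable def correlation (w f : ℕ → ℝ) (X : ℕ) (a : ℤ) : ℝ :=
  ∑ n ∈ Icc 1 (Nat.sqrt X), ∑ p ∈ primes X, if (n : ℤ) ^ 2 + a = p then w n * f p else 0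

/-- The quadratic exponential sum: the sum of `w(n) exp(2 π i θ n²)` over `1 ≤ n ≤ √X`. -/
noncomputable def squareSum (w : ℕ → ℝ) (X : ℕ) (θ : ℝ) : ℂ :=
  ∑ n ∈ Icc 1 (Nat.sqrt X), (w n : ℂ) * Complex.exp (2 * Real.pi * Complex.I * θ * (n : ℂ) ^ 2)

/-- The exponential sum over the primes: the sum of `f(p) exp(2 π i θ p)` over the primes `p ≤ X`. -/
noncomputable def primeSum (f : ℕ → ℝ) (X : ℕ) (θ : ℝ) : ℂ :=
  ∑ p ∈ primes X, (f p : ℂ) * Complex.exp (2 * Real.pi * Complex.I * θ * (p : ℂ))

/-- The shifts `|a| ≤ X` for which the correlation is larger than `ε √X / log X` in absolute value. -/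
noncomputable def largeShifts (w f : ℕ → ℝ) (ε : ℝ) (X : ℕ) : Finset ℤ :=
  (Icc (-(X : ℤ)) X).filter (fun a => ε * (Real.sqrt X / Real.log X) < |correlation w f X a|)

/-- **The correlation of arbitrary weights is large for many shifts if and only if one frequency explains it.** There
are `K` and `C` such that for every `0 < ε ≤ 1`, all large `X` and all `w`, `f` with values in `[-1, 1]`:
(1) if the correlation is larger than `ε √X / log X` for more than `ε X` of the `|a| ≤ X` then there is a real `θ` for
which the product of the two exponential sums is at least `(ε / C)^K √X (X / log X)`;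
(2) if there is a real `θ` for which the product of the two exponential sums is at least `ε √X (X / log X)` then the
correlation is larger than `(ε / 7) √X / log X` for at least `(ε² / C) X` of the `|a| ≤ X`. -/
theorem result : ∃ K : ℕ, ∃ C : ℝ, 1 ≤ C ∧ ∀ ε : ℝ, 0 < ε → ε ≤ 1 → ∃ X₀ : ℕ, ∀ X : ℕ, X₀ ≤ X →
    ∀ w f : ℕ → ℝ, (∀ n, |w n| ≤ 1) → (∀ p, |f p| ≤ 1) →
      (ε * X < #(largeShifts w f ε X) →
        ∃ θ : ℝ, (ε / C) ^ K * (Real.sqrt X * (X / Real.log X)) ≤ ‖squareSum w X θ‖ * ‖primeSum f X θ‖) ∧
      ((∃ θ : ℝ, ε * (Real.sqrt X * (X / Real.log X)) ≤ ‖squareSum w X θ‖ * ‖primeSum f X θ‖) →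
        ε ^ 2 / C * X ≤ #(largeShifts w f (ε / 7) X)) := by
  obtain ⟨K, C₁, hC₁, h1⟩ := Pool.Agent.W5h22.JW.inverse
  obtain ⟨C₂, hC₂, h2⟩ := Pool.Agent.W5h22.JW.converse
  refine ⟨K, max C₁ C₂, hC₁.trans (le_max_left _ _), ?_⟩
  intro ε hε hε1
  obtain ⟨X₁, h1⟩ := eventually_atTop.1 (h1 ε hε hε1)
  obtain ⟨X₂, h2⟩ := eventually_atTop.1 (h2 ε hε)
  refine ⟨max (max X₁ X₂) 3, ?_⟩
  intro X hX w f hw hf
  have hX1 : X₁ ≤ X := ((le_max_left _ _).trans (le_max_left _ _)).trans hX
  have hX2 : X₂ ≤ X := ((le_max_right _ _).trans (le_max_left _ _)).trans hX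
  have hX3 : 3 ≤ X := (le_max_right _ _).trans hX
  have hXr : (3 : ℝ) ≤ X := by exact_mod_cast hX3
  have hlX : 0 < Real.log X := Real.log_pos (by linarith)
  have hs0 : 0 < Real.sqrt X := Real.sqrt_pos.2 (by linarith)
  have e1 : ∀ a : ℤ, correlation w f X a = Pool.Agent.W5h22.JW.cr w f X a := by
    intro a
    unfold correlation Pool.Agent.W5h22.JW.cr Pool.Agent.W5h22.JW.pq
    apply sum_congr rfl
    intro n _
    by_cases h : ((n : ℤ) ^ 2 + a).toNat ∈ (Icc 1 X).filter Nat.Prime
    · rw [if_pos h]
      have h3 := h
      rw [mem_filter, mem_Icc] at h3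
      rw [sum_eq_single_of_mem _ (show ((n : ℤ) ^ 2 + a).toNat ∈ primes X from h)]
      · rw [if_pos]
        omega
      · intro p hp hne
        rw [if_neg]
        intro heq
        apply hne
        rw [heq, Int.toNat_natCast]
    · rw [if_neg h, mul_zero]
      apply sum_eq_zero
      intro p hp
      rw [if_neg]
      intro heq
      apply h
      rw [heq, Int.toNat_natCast]
      exact hp
  have e2 : ∀ θ : ℝ, squareSum w X θ = Pool.Agent.W5h22.JW.SS w X θ := by
    intro θ
    unfold squareSum Pool.Agent.W5h22.JW.SS
    apply sum_congr rfl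
    intro n _
    unfold Pool.Agent.Helper602.MK.ee
    congr 2
    push_cast
    ring
  have e3 : ∀ θ : ℝ, primeSum f X θ = Pool.Agent.W5h22.JW.TT f X θ := by
    intro θ
    unfold primeSum Pool.Agent.W5h22.JW.TT primes
    apply sum_congr rfl
    intro n _
    unfold Pool.Agent.Helper602.MK.ee
    congr 2
    push_cast
    ring
  constructor
  · intro hlarge
    by_contra hcon
    push Not at hcon
    have h3 := h1 X hX1 w f hw hf (by
      intro θ
      have h4 := (hcon θ).le
      rw [e2, e3] at h4
      refine h4.trans ?_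
      apply mul_le_mul_of_nonneg_right _ (by positivity)
      apply pow_le_pow_left₀ (by positivity)
      exact div_le_div_of_nonneg_left hε.le (by linarith) (le_max_left _ _))
    unfold largeShifts at hlarge
    simp only [e1] at hlarge
    linarith
  · rintro ⟨θ, hθ⟩
    rw [e2, e3] at hθ
    have h3 := h2 X hX2 w f hw hf θ hθ
    have h4 : ε ^ 2 / max C₁ C₂ * X ≤ ε ^ 2 / C₂ * X := by
      apply mul_le_mul_of_nonneg_right _ (by linarith)
      exact div_le_div_of_nonneg_left (by positivity) (by linarith) (le_max_right _ _)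
    refine h4.trans (h3.trans ?_)
    unfold largeShifts
    simp only [e1]
    have h5 : (Icc (-(X : ℤ)) X).filter (fun a => ε / 6 * (Real.sqrt X / Real.log X) ≤ |Pool.Agent.W5h22.JW.cr w f X a|) ⊆
        (Icc (-(X : ℤ)) X).filter (fun a => ε / 7 * (Real.sqrt X / Real.log X) < |Pool.Agent.W5h22.JW.cr w f X a|) := by
      intro a ha
      rw [mem_filter] at *
      refine ⟨ha.1, lt_of_lt_of_le ?_ ha.2⟩
      apply mul_lt_mul_of_pos_right _ (by positivity)
      linarith
    exact_mod_cast card_le_card h5

end Pool.Agent.Results.MP_391708_nt.JointWeights
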